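import Mathlib

namespace Pool.Agent.Results.MP_64c30f_co.Q1

variable {V : Type}

/-- Cops at `C`, robber at `r`, cops to move: the cops can force a capture. -/
inductive CopWin (G : SimpleGraph V) {k : ℕ} : (Fin k → V) → V → Prop
  | caught (C : Fin k → V) (r : V) : (∃ i, C i = r) → CopWin G C r
  | catchNow (C C' : Fin k → V) (r : V) : (∀ i, C' i = C i ∨ G.Adj (C i) (C' i)) →
      (∃ i, C' i = r) → CopWin G C r
  | step (C C' : Fin k → V) (r : V) : (∀ i, C' i = C i ∨ G.Adj (C i) (C' i)) →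
      (∀ r', (r' = r ∨ G.Adj r r') → CopWin G C' r') → CopWin G C r

noncomputable def copNumber (G : SimpleGraph V) : ℕ :=
  sInf {k | ∃ C : Fin k → V, ∀ r, CopWin G C r}

/-- One pebbling move. -/
def PMove [DecidableEq V] (G : SimpleGraph V) (D D' : V → ℕ) : Prop :=
  ∃ u v, G.Adj u v ∧ 2 ≤ D u ∧ D' = fun x => if x = u then D x - 2 else if x = v then D x + 1 else D x

noncomputable def optPebbling [Fintype V] [DecidableEq V] (G : SimpleGraph V) : ℕ :=
  sInf {n | ∃ D : V → ℕ, ∑ v, D v = n ∧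
    ∀ r, ∃ D', Relation.ReflTransGen (PMove G) D D' ∧ 1 ≤ D' r}

abbrev W := Fin 2 × Fin 5 × Fin 5

def adjB (a b : W) : Bool :=
  if a.1 = 0 then
    (if b.1 = 0 then a.2.1 = b.2.1 ∧ (a.2.2 = b.2.2 + 1 ∨ b.2.2 = a.2.2 + 1)
     else b.2.2 = a.2.1 * b.2.1 + a.2.2)
  else
    (if b.1 = 0 then a.2.2 = b.2.1 * a.2.1 + b.2.2
     else a.2.1 = b.2.1 ∧ (a.2.2 = b.2.2 + 2 ∨ b.2.2 = a.2.2 + 2))

theorem adj_symm : ∀ a b : W, adjB a b = true → adjB b a = true := by decide +kernel
theorem adj_irr : ∀ a : W, adjB a a = false := by decide +kernel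

/-- The Hoffman-Singleton graph. -/
def HS : SimpleGraph W where
  Adj a b := adjB a b = true
  symm := ⟨fun a b h => adj_symm a b h⟩
  loopless := ⟨fun a h => by simp [adj_irr a] at h⟩

def nb (v : W) : Finset W := Finset.univ.filter (fun x => adjB v x = true)

theorem nb_card : ∀ v : W, (nb v).card = 7 := by decide +kernel

theorem guard : ∀ v c : W, c ≠ v →
    ((nb v).filter (fun x => x = c ∨ adjB c x = true)).card ≤ 1 := by decide +kernel

theorem rad : ∀ r : W, r = (0, 0, 0) ∨ adjB (0, 0, 0) r = true ∨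
    ∃ m, adjB (0, 0, 0) m = true ∧ adjB m r = true ∧ r ≠ (0, 0, 0) ∧ r ≠ m := by decide +kernel

theorem escape {k : ℕ} (hk : k ≤ 4) (C : Fin k → W) (v : W) (hv : ∀ i, C i ≠ v) :
    ∃ x, HS.Adj v x ∧ ∀ i, x ≠ C i ∧ ¬ HS.Adj (C i) x := by
  by_contra h
  push Not at h
  have hsub : nb v ⊆ Finset.univ.biUnion
      (fun i => (nb v).filter (fun x => x = C i ∨ adjB (C i) x = true)) := by
    intro x hx
    have hx' : HS.Adj v x := (Finset.mem_filter.1 hx).2
    obtain ⟨i, hi⟩ := h x hx'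
    refine Finset.mem_biUnion.2 ⟨i, Finset.mem_univ _, Finset.mem_filter.2 ⟨hx, ?_⟩⟩
    by_cases e : x = C i
    · exact Or.inl e
    · exact Or.inr (hi e)
  have h1 := Finset.card_le_card hsub
  have h2 := Finset.card_biUnion_le (s := (Finset.univ : Finset (Fin k)))
    (t := fun i => (nb v).filter (fun x => x = C i ∨ adjB (C i) x = true))
  have h3 : ∑ i : Fin k, ((nb v).filter (fun x => x = C i ∨ adjB (C i) x = true)).card ≤
      ∑ _i : Fin k, 1 := Finset.sum_le_sum (fun i _ => guard v (C i) (hv i))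
  rw [nb_card] at h1
  simp at h3
  omega

theorem robber {k : ℕ} (hk : k ≤ 4) (C : Fin k → W) (r : W) (h : CopWin HS C r) :
    ¬ ∀ i, r ≠ C i ∧ ¬ HS.Adj (C i) r := by
  induction h with
  | caught C r h =>
    intro h2; obtain ⟨i, hi⟩ := h; exact (h2 i).1 hi.symm
  | catchNow C C' r hm h =>
    intro h2; obtain ⟨i, hi⟩ := h
    rcases hm i with e | e
    · exact (h2 i).1 (by rw [← hi, e])
    · exact (h2 i).2 (hi ▸ e)
  | step C C' r hm _ ih =>
    intro h2
    have hv : ∀ i, C' i ≠ r := by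
      intro i hi
      rcases hm i with e | e
      · exact (h2 i).1 (by rw [← hi, e])
      · exact (h2 i).2 (hi ▸ e)
    obtain ⟨x, hx, hx2⟩ := escape hk C' r hv
    exact ih x (Or.inr hx) hx2

theorem cop_ge : 5 ≤ copNumber HS := by
  have hne : {k | ∃ C : Fin k → W, ∀ r, CopWin HS C r}.Nonempty :=
    ⟨Fintype.card W, (Fintype.equivFin W).symm, fun r =>
      CopWin.caught _ _ ⟨Fintype.equivFin W r, by simp⟩⟩
  obtain ⟨C, hC⟩ := Nat.sInf_mem hne
  by_contra hlt
  have hk : sInf {k | ∃ C : Fin k → W, ∀ r, CopWin HS C r} ≤ 4 := by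
    unfold copNumber at hlt; omega
  have : ∃ v, ∀ i, C i ≠ v := by
    by_contra h
    push Not at h
    have hs : Function.Surjective C := h
    have := Fintype.card_le_of_surjective C hs
    rw [Fintype.card_fin, show Fintype.card W = 50 by simp] at this
    omega
  obtain ⟨v, hv⟩ := this
  obtain ⟨x, _, hx⟩ := escape hk C v hv
  exact robber hk C x (hC x) hx

theorem peb_le : optPebbling HS ≤ 4 := by
  apply Nat.sInf_le
  refine ⟨fun x => if x = (0, 0, 0) then 4 else 0, by simp, fun r => ?_⟩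
  rcases rad r with rfl | h | ⟨m, h1, h2, h3, h4⟩
  · exact ⟨_, Relation.ReflTransGen.refl, by simp⟩
  · have hr : r ≠ (0, 0, 0) := fun e => by rw [e, adj_irr] at h; simp at h
    exact ⟨_, Relation.ReflTransGen.single ⟨(0, 0, 0), r, h, by simp, rfl⟩, by simp [hr]⟩
  · have hm : m ≠ (0, 0, 0) := fun e => by rw [e, adj_irr] at h1; simp at h1
    refine ⟨_, ((Relation.ReflTransGen.single ⟨(0, 0, 0), m, h1, by simp, rfl⟩).tail
      ⟨(0, 0, 0), m, h1, by simp, rfl⟩).tail ⟨m, r, h2, by simp [hm], rfl⟩, by simp [h3, h4]⟩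

theorem result : ∃ (V : Type) (_ : Fintype V) (_ : DecidableEq V) (G : SimpleGraph V),
    G.Connected ∧ optPebbling G < copNumber G := by
  refine ⟨W, inferInstance, inferInstance, HS, ?_, ?_⟩
  · have key : ∀ r, HS.Reachable (0, 0, 0) r := by
      intro r
      rcases rad r with rfl | h | ⟨m, h1, h2, _, _⟩
      · rfl
      · exact SimpleGraph.Adj.reachable h
      · exact (SimpleGraph.Adj.reachable (G := HS) h1).trans (SimpleGraph.Adj.reachable h2)
    exact ⟨fun a b => (key a).symm.trans (key b)⟩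
  · have := cop_ge; have := peb_le; omega

end Pool.Agent.Results.MP_64c30f_co.Q1
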